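import Mathlib
import Pool.Agent.R261.PeakExample

/-!
# MP_84bbc2_an: a peak set `E` for `A_α` with `dist(·, E)^(-α)` not integrable

For every `0 < α < 1` there is a countable closed subset `E` of the circle which is a peak set for
the analytic Lipschitz class `A_α`, while the integral of `dist(ζ, E)^(-α)` over the circle is
infinite.

The set consists of `1` and of finitely many points `ζ_j` in each arc `[4^(-n), 2 * 4^(-n)]`; the
peak function is `1 - 1 / (2 G)` with `G z = 1 / (1 - z) + ∑ 1 / (w_j ^ α + w_j / c_j)`,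
`w_j = 1 - z / ζ_j`.
-/

set_option autoImplicit false

open Set Filter Topology Complex Metric MeasureTheory

open scoped ENNReal

namespace Pool.Agent.Results.MP_84bbc2_an.NonintegrableDist

/-- The class `A_α`: functions analytic in the open disc, continuous on the closed disc and
satisfying a Lipschitz condition of order `α` on the circle. -/
def ClassA (α : ℝ) (f : ℂ → ℂ) : Prop :=
  DifferentiableOn ℂ f (ball 0 1) ∧ ContinuousOn f (closedBall 0 1) ∧
    ∃ C : ℝ, ∀ z ∈ sphere (0 : ℂ) 1, ∀ w ∈ sphere (0 : ℂ) 1, ‖f z - f w‖ ≤ C * ‖z - w‖ ^ α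

/-- `E` is a peak set for `A_α`. -/
def IsPeakSet (α : ℝ) (E : Set ℂ) : Prop :=
  ∃ f : ℂ → ℂ, ClassA α f ∧ (∀ z ∈ E, f z = 1) ∧ ∀ z ∈ sphere (0 : ℂ) 1, z ∉ E → ‖f z‖ < 1

/-- The integral of `dist(ζ, E)^(-α)` over the circle (arc length), as an element of `[0, ∞]`. -/
noncomputable def distIntegral (α : ℝ) (E : Set ℂ) : ℝ≥0∞ :=
  ∫⁻ θ in Ioc (0 : ℝ) (2 * Real.pi), ENNReal.ofReal (infDist (circleMap 0 1 θ) E) ^ (-α)

/-- **Theorem.** For every `0 < α < 1` there is a countable closed subset `E` of the circle which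
is a peak set for `A_α` and such that the integral of `dist(ζ, E)^(-α)` is infinite. -/
theorem result : ∀ α : ℝ, 0 < α → α < 1 → ∃ E : Set ℂ, E ⊆ sphere 0 1 ∧ IsClosed E ∧
    E.Countable ∧ IsPeakSet α E ∧ distIntegral α E = ⊤ := by
  intro α hα0 hα1
  obtain ⟨J, X, m0, hEc, hm0, hX⟩ := Pool.Agent.R261.PeakExample.exists_config hα0 hα1
  obtain ⟨f, ⟨hf1, hf2, C, hC⟩, hf3, hf4⟩ := X.peak hα0 hα1
  refine ⟨X.E, X.E_sub, X.E_closed, hEc, ⟨f, ⟨hf1, hf2, C, hC⟩, hf3, hf4⟩, ?_⟩
  have hρ := Pool.Agent.R261.PeakExample.ρ_pos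
  have hN : ∀ n, (0 : ℝ) < Pool.Agent.R261.PeakExample.Nn α (n + m0) := fun n => by
    have := Pool.Agent.R261.PeakExample.N_pos hα0 hα1 (n := n + m0) (by omega)
    exact_mod_cast this
  set a : ℕ → ℝ := fun n => Pool.Agent.R261.PeakExample.ρ (n + m0) with ha
  set δ : ℕ → ℝ := fun n => Pool.Agent.R261.PeakExample.ρ (n + m0) /
    Pool.Agent.R261.PeakExample.Nn α (n + m0) with hδ
  have hapos : ∀ n, 0 < a n := fun n => hρ _
  have hδpos : ∀ n, 0 < δ n := fun n => div_pos (hρ _) (hN n)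
  have hdec : ∀ n k, n < k → 2 * a k ≤ a n := by
    intro n k hnk
    have h1 := Pool.Agent.R261.PeakExample.ρ_lt (show n + m0 < k + m0 by omega)
    have := hapos k
    simp only [ha] at this ⊢
    linarith
  have hle : ∀ n, 2 * a n ≤ 2 * Real.pi := by
    intro n
    have := Pool.Agent.R261.PeakExample.ρ_le (n := n + m0) (by omega)
    have := Real.pi_gt_three
    simp only [ha]
    linarith
  have hdisj : Pairwise (Function.onFun Disjoint fun n => Ioc (a n) (2 * a n)) := by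
    intro n k hnk
    simp only [Function.onFun]
    rw [Set.disjoint_left]
    intro x hx hx'
    rcases lt_or_gt_of_ne hnk with h | h
    · have := hdec n k h
      linarith [hx.1, hx'.2]
    · have := hdec k n h
      linarith [hx.2, hx'.1]
  have hsub : (⋃ n, Ioc (a n) (2 * a n)) ⊆ Ioc (0 : ℝ) (2 * Real.pi) := by
    refine iUnion_subset fun n x hx => ?_
    exact ⟨(hapos n).trans hx.1, hx.2.trans (hle n)⟩
  have hlow : ∀ n, ENNReal.ofReal (1 / ((n + m0 : ℕ) : ℝ)) ≤
      ∫⁻ θ in Ioc (a n) (2 * a n), ENNReal.ofReal (infDist (circleMap 0 1 θ) X.E) ^ (-α) := by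
    intro n
    have h1 := Pool.Agent.R261.PeakExample.diverge hα0 hα1 (n := n + m0) (by omega)
    have h2 : ∀ θ ∈ Ioc (a n) (2 * a n), ENNReal.ofReal ((δ n) ^ (-α)) ≤
        ENNReal.ofReal (infDist (circleMap 0 1 θ) X.E) ^ (-α) := by
      intro θ hθ
      have h3 := hX (n + m0) (by omega) θ ⟨hθ.1.le, hθ.2⟩
      rw [← ENNReal.ofReal_rpow_of_pos (hδpos n), ENNReal.rpow_neg, ENNReal.rpow_neg]
      refine ENNReal.inv_le_inv.2 ?_
      exact ENNReal.rpow_le_rpow (ENNReal.ofReal_le_ofReal h3) hα0.le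
    calc ENNReal.ofReal (1 / ((n + m0 : ℕ) : ℝ))
        ≤ ENNReal.ofReal ((δ n) ^ (-α) * (a n)) := by
          refine ENNReal.ofReal_le_ofReal (h1.trans (le_of_eq ?_))
          rw [mul_comm]
      _ = ∫⁻ _ in Ioc (a n) (2 * a n), ENNReal.ofReal ((δ n) ^ (-α)) := by
          rw [lintegral_const, Measure.restrict_apply MeasurableSet.univ, univ_inter,
            Real.volume_Ioc, ← ENNReal.ofReal_mul (Real.rpow_nonneg (hδpos n).le _)]
          congr 2
          ring
      _ ≤ _ := setLIntegral_mono' measurableSet_Ioc h2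
  have hsum : ∑' n : ℕ, ENNReal.ofReal (1 / ((n + m0 : ℕ) : ℝ)) = ⊤ := by
    by_contra h
    have h1 := ENNReal.summable_toReal h
    have h2 : Summable fun n : ℕ => 1 / ((n + m0 : ℕ) : ℝ) := by
      refine h1.congr fun n => ?_
      rw [ENNReal.toReal_ofReal (by positivity)]
    exact Real.not_summable_one_div_natCast ((summable_nat_add_iff m0).1 h2)
  rw [eq_top_iff, ← hsum]
  calc ∑' n : ℕ, ENNReal.ofReal (1 / ((n + m0 : ℕ) : ℝ))
      ≤ ∑' n : ℕ, ∫⁻ θ in Ioc (a n) (2 * a n),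
          ENNReal.ofReal (infDist (circleMap 0 1 θ) X.E) ^ (-α) := ENNReal.tsum_le_tsum hlow
    _ = ∫⁻ θ in ⋃ n, Ioc (a n) (2 * a n),
          ENNReal.ofReal (infDist (circleMap 0 1 θ) X.E) ^ (-α) :=
        (lintegral_iUnion (fun n => measurableSet_Ioc) hdisj _).symm
    _ ≤ distIntegral α X.E := lintegral_mono_set hsub

end Pool.Agent.Results.MP_84bbc2_an.NonintegrableDist
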